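import Mathlib
import Pool.Agent.TH504.CB.Low4

/-!
# The variational Hodge conjecture for abelian schemes with many moduli

Let `A i` (`i` in a finite set) be holomorphic families of principally polarized abelian varieties,
of dimensions `g i`, over a connected open subset `U` of `ℂ ^ d`, each with at least one simple
member; for instance `U` is a chart of the base of abelian schemes (or of the universal covering of
the base). The homology of the members is trivialized. There is a set `R` of indices such that, on
each fibre product `P` of the `A i` over `U` (repetitions allowed), each flat class which is a Hodge
class on all members is a rational linear combination of wedge products of flat divisor classes and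
one flat Hodge class which is pulled back from the factors of `P` with index in `R`. If these
factors have total dimension at most three then each flat class which is a Hodge class on all
members of `P` is a combination of products of flat divisor classes.

The set `R` is small if there are many moduli: it is empty if all `A i` are moving, and if `w i` are
positive multiplicities, `G` is the dimension of the product of the `A i ^ (w i)` and `D` is the
rank of the Kodaira-Spencer map of the product of the `A i` at some point, `4 D > G ^ 2` and
`4 D > (ρ + 1) ^ 2 + 2 (G - ρ - 1) (G - ρ)`, then the product of the `A i ^ (w i)` with `i` in `R`
has dimension at most `ρ`.

So (`ρ = 3`, `P` the product of the `A i ^ (w i)`): if an abelian scheme of relative dimension `G`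
over a smooth base has more than the maximum of `G ^ 2 / 4` and `4 + (G - 4) (G - 3) / 2` moduli,
then each flat class which is a Hodge class on all members is a polynomial in flat divisor classes.
By the theorem of the fixed part a global section which is algebraic on one member is a Hodge class
on all members, so by the theorem of Lefschetz on divisor classes it is algebraic on all members:
this is the variational Hodge conjecture, in all degrees, for these abelian schemes. The bound is
sharp for the statement on divisor classes for all even `G` (the abelian varieties of dimension `G`
of Weil type have `G ^ 2 / 4` moduli) and for all `G` from ten on (the products of an abelian
variety of dimension `G - 4` and a fourfold of Weil type).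

The proof uses the theorem on very general members of `MP_802513_ag.ManyModuli`; flat classes which
are Hodge classes at a very general point are Hodge classes everywhere. For the factors with index
in `R` the following is added: a Hodge class of degree more than `g` on an abelian variety of
dimension `g` is a sum of products of divisor classes and Hodge classes of smaller degree. Indeed
the forms of degree more than `g` are multiples of the polarization, and by the polarizability of
the Hodge structures involved a Hodge class in the ideal generated by the invariant bilinear forms
is a combination of products of invariant bilinear forms and Hodge classes. In dimension at most
three only divisor classes remain.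
-/

namespace Pool.Agent.Results.MP_e9c0f3_ag.ManyModuliFlat

open Pool.Agent.H204R3.CM Pool.Agent.H194R3.CM Pool.Agent.W437.HD Pool.Agent.W437.HP
  Pool.Agent.TH504.VL Pool.Agent.TH504.VY Pool.Agent.TH504.CB

/-- Flat classes which are Hodge classes on all members of a fibre product of families of abelian
varieties are combinations of products of flat divisor classes and of flat Hodge classes from a
part of the factors, which is small if there are many moduli and which contributes nothing if its
dimension is at most three. -/
theorem result {ι : Type} [Fintype ι] [DecidableEq ι] {g : ι → ℕ} {d : ℕ}
    {U : Set (Fin d → ℂ)} (hU : IsOpen U) (hc : IsPreconnected U) (hne : U.Nonempty)
    (Z : ∀ i, (Fin d → ℂ) → Matrix (Fin (g i)) (Fin (g i)) ℂ)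
    (hZ : ∀ i, IsPeriodFamily U (Z i)) :
    ∃ R : Finset ι, IsSmallPart U Z R ∧ FlatClassesDecompose U Z R ∧
      FlatClassesDivisorial U Z R :=
  main_flat hU hc hne Z hZ

end Pool.Agent.Results.MP_e9c0f3_ag.ManyModuliFlat
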