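import Mathlib
import Pool.Agent.TH125.VhcMain
import Pool.Agent.TH125.SmallDefs

/-!
# The variational Hodge conjecture for products of abelian schemes with small or odd monodromy

A polarized abelian scheme over a smooth connected curve is given, up to isogeny and after the
choice of a basis of the homology of one fibre, by a holomorphic family of symmetric matrices `Z t`
with positive definite imaginary part, where `t` runs through the universal covering `U` of the
curve: the fibre over the image of `t` is `ℂ ^ g / (ℤ ^ g + Z(t) ℤ ^ g)`. The rational homology
of all fibres is identified with `ℚ ^ g ⊕ ℚ ^ g`, and the flat classes (the global sections of the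
local systems over `U`) are the alternating forms on this space. A monodromy operator `γ` is a
rational symplectic matrix such that for each `t` in `U` there is a `t'` in `U` (the image of `t`
under the covering transformation) such that `γ` comes from a complex linear map from the tangent
space of the fibre at `t` to the tangent space of the fibre at `t'`.

Let `A i` be finitely many such families over the same base and suppose that each of them has at
least one simple fibre and that a number `r` which is the rank of one of the following matrices is
odd, or is equal to two and the centre of the endomorphism algebra of the family is totally real: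

* `γ - 1` for a monodromy operator `γ` with `(γ - 1) ^ 2 = 0`: for instance `r` is the dimension of
  the toric part of a semistable degeneration;
* the derivative of the period matrix at one point (the Kodaira-Spencer map);
* the difference of the period matrices of two points.

Then the variational Hodge conjecture holds for all products `X` of the families `A i`
(repetitions allowed), in all degrees: a flat class which is a Hodge class on all fibres of `X`
(by the theorem of the fixed part this is so for a global section which is algebraic on one fibre)
is a linear combination of products of flat classes of degree two which are Hodge classes on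
all fibres. By the Lefschetz theorem these are algebraic on every fibre.

The proof: let `L` be the Lie algebra generated by the Hodge operators of all fibres and their
images under rational linear maps. The matrix `N = γ - 1` normalizes `L`. As the trace form is
nondegenerate on `L`, `N` is the sum of an element of `L` and of an element `c` which commutes
with `L` and is orthogonal to it. `c` is an endomorphism of the very general fibre which is skew for
the Rosati involution, so `tr (c ^ 2) < 0` unless `c = 0`; but `N = (N - c) + c` is nilpotent and
commutes with `c`, which gives `tr (c ^ 2) = 0`. So `N` is in `L`. If the rank is odd then `L`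
contains a matrix of rank one (file `Pool/Agent/W548/Odd/Hodge.lean`). If the rank is two and the
centre is totally real then the homology is a sum of stable subspaces on which `L` acts as the
full symplectic Lie algebra (file `Pool/Agent/TH125/RankTwo.lean`).
-/

namespace Pool.Agent.Results.MP_e9c0f3_ag.SmallMonodromy

open Matrix Pool.Agent.H204R3.CM Pool.Agent.H194R3.CM Pool.Agent.W437.HC Pool.Agent.W437.HD
  Pool.Agent.W437.HP Pool.Agent.TH125.Small

/-- The span of the products `B 0 ∧ ... ∧ B (m - 1)` of flat classes of degree two which are Hodge
classes on all members of a family (`per t` is the inclusion of the homology in the tangent space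
of the member `t`). -/
def flatDivisorial {W T : Type} [AddCommGroup W] [Module ℚ W] [AddCommGroup T] [Module ℂ T]
    (U : Set ℂ) (per : ℂ → W →+ T) (m : ℕ) : Submodule ℚ (W [⋀^Fin m × Fin 2]→ₗ[ℚ] ℚ) :=
  Submodule.span ℚ {f | ∃ B : Fin m → W [⋀^Fin 2]→ₗ[ℚ] ℚ,
    (∀ l, ∀ t ∈ U, IsHodge (per t) (B l)) ∧
    ∀ v, f v = ∑ σ : Equiv.Perm (Fin m × Fin 2), (Equiv.Perm.sign σ : ℤ) *
      ∏ l, B l ![v (σ (l, 0)), v (σ (l, 1))]}

/-- The variational Hodge conjecture for the products `A (c 0) × ... × A (c (n - 1))` (over the
base) of small families `A i`: flat classes `f` of degree `2 m` which are Hodge classes on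
all fibres are linear combinations of products of flat classes of degree two which are Hodge
classes on all fibres. -/
theorem result {ι : Type} [Fintype ι] {U : Set ℂ} (hU : IsOpen U) (hc : IsPreconnected U)
    (hne : U.Nonempty) {g : ι → ℕ} (Z : ∀ i, ℂ → Matrix (Fin (g i)) (Fin (g i)) ℂ)
    (hsmall : ∀ i, IsSmallFamily U (Z i)) {n m : ℕ} (c : Fin n → ι)
    (f : (∀ j, Fin (g (c j)) ⊕ Fin (g (c j)) → ℚ) [⋀^Fin m × Fin 2]→ₗ[ℚ] ℚ)
    (hf : ∀ t ∈ U, IsHodge (perFam (fun i => Z i t) c) f) :
    f ∈ flatDivisorial U (fun t => perFam (fun i => Z i t) c) m := by
  classical
  have hper : ∀ i, ∀ t ∈ U, (Z i t).transpose = Z i t ∧ (imM (Z i t)).PosDef := fun i =>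
    (hsmall i).2.1
  choose E hE hEt using fun i => exists_pcs hU hc (hsmall i)
  have hYb : ∀ t ∈ U, IsUnit (imM (bigD ℂ (fun i => Z i t))).det := fun t ht =>
    (imM_bigD_posDef (fun i => Z i t) fun i => (hper i t ht).2).isUnit.map Matrix.detMonoidHom
  obtain ⟨E', hE', hEt'⟩ := Pool.Agent.W548.Odd.exists_exceptional hU hc
    (fun t => bigD ℂ (fun i => Z i t)) (by
      intro k l
      unfold bigD
      simp only [Matrix.sum_apply, Matrix.mul_apply, Matrix.transpose_apply]
      refine DifferentiableOn.fun_sum fun i _ => DifferentiableOn.fun_sum fun a _ => ?_
      refine DifferentiableOn.mul_const ?_ _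
      refine DifferentiableOn.fun_sum fun b _ => ?_
      exact ((hsmall i).1 _ _).const_mul _) hYb
  obtain ⟨t0, ht0, ht0E⟩ : ∃ t0 ∈ U, t0 ∉ (⋃ i, E i) ∪ E' := by
    obtain ⟨t, ht, htE⟩ := (((Set.countable_iUnion hE).union hE').dense_compl ℝ).inter_open_nonempty
      U hU hne
    exact ⟨t, ht, htE⟩
  rw [Set.mem_union, not_or, Set.mem_iUnion, not_exists] at ht0E
  have hdiv : f ∈ divisorial (perFam (fun i => Z i t0) c) m :=
    Pool.Agent.W437.HR.divisorial_of_pcs (fun i => Z i t0) (fun i => (hper i t0 ht0).1)
      (fun i => (hper i t0 ht0).2) (fun i => hEt i t0 ht0 (ht0E.1 i)) c f (hf t0 ht0)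
  refine Submodule.span_mono ?_ hdiv
  rintro F ⟨B, hB, hF⟩
  refine ⟨B, fun l t ht => ?_, hF⟩
  exact Pool.Agent.TH125.isHodge_transport (fun i => (hper i t0 ht0).2)
    (fun i => (hper i t ht).2) (hEt' t0 ht0 ht0E.2 t ht) c (hB l)

end Pool.Agent.Results.MP_e9c0f3_ag.SmallMonodromy
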