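import Mathlib
import Pool.Agent.TH170.QD.Use
import Pool.Agent.TH170.VH.Main

/-!
# The variational Hodge conjecture for all families generated by abelian schemes with a fibre of
almost any CM type of arbitrary CM fields

Let `E` be a CM field of degree `2 g`; nothing is assumed about its Galois group. The automorphisms
of `ℂ` act on the set of the `2 g` complex embeddings of `E` through a finite group `G` (the Galois
group of the normal closure), and so on the space `V`, of dimension `g`, of the rational functions
on this set that change their sign under complex conjugation. There are `2 ^ g` CM types of `E`.
Let `E i` be finitely many CM fields, of degrees `2 g i`, that are pairwise independent: for `i ≠ k`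
and all complex embeddings `φ` of `E i` and `ψ` of `E k` some automorphism of `ℂ` is the identity on
`φ (E i)` and the complex conjugation on `ψ (E k)` (this is no condition for one field). There are
`2 ^ (∑ i, g i)` families `Φ` of CM types `Φ i` of the fields `E i`.

A family of abelian varieties (`Family`) is described on the universal covering `S` of its base: the
rational homology groups of the fibres are identified with one space `W`, and the fibre at `s` is given
by its tangent space `T s` and the map `per s : W → T s`. It is an abelian scheme (`IsAbelian`) if all
fibres are abelian varieties and some fibre is Hodge generic (very general fibres are). Classes on the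
fibre powers `A ^ n → S` are alternating forms on `W ^ n` (`Form`); they are flat. We assume that some
fibre is isogenous to the product of the abelian varieties `A i` of CM type `(E i, Φ i)`, each taken
once (`HasFibre`).

Let `X → S` be a smooth projective family such that its cohomology of degree `2 q` is a direct summand of
the sum of the cohomology of fibre powers of the abelian scheme `A → S`, by relative correspondences
(`IsGenerated`): for instance the fibre powers themselves; if `A` is the Jacobian of a family of curves
also products, symmetric powers and moduli spaces of vector bundles of these curves. The family is
described by the flat classes `H`, the global sections `inv`, the Hodge classes `hdg s` and the algebraic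
classes `alg s` (`Variation`, `IsVariation`: algebraic classes are Hodge classes; theorem of the fixed
part). The products of rational Hodge classes of degree two are algebraic (Lefschetz).

We call the family of types `Φ` exceptional if the variational Hodge conjecture (`Variation.Holds`: a
global section that is algebraic at one point is algebraic at all points) fails for some such family
`X → S`, generated by some abelian scheme with a fibre of the types `Φ i`.

The theorem of Hazama (`HazamaTheorem`) is a hypothesis: if the rank of the Hodge group of a complex
abelian variety is equal to its dimension then all Hodge classes on all powers are generated by those of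
degree two (Hazama, Algebraic cycles on certain abelian varieties and powers of special surfaces, 1984).
The rank is expressed by a torus of dimension `dim A` which fixes all Hodge classes on all powers
(`HasFullRank`).

The theorem bounds the number of the exceptional families (given Hazama's theorem): it is at most
`2 ^ (∑ i, g i) * ∑ i, ρ (E i)`, where `ρ (E)` (`rho g φ₀`) is the sum of the numbers `w (W)`
(`weight g φ₀ W`) over the isotypic components `W` of `V` (`components E`):

* `w (W) = 0` if every minimal Galois-stable space in `W` contains a function with integral values
  whose sum over a CM type is odd;
* otherwise `w (W) = (2 d / (π g)) ^ (d / 2)` if `W` is itself a minimal space, of dimension `d`;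
* otherwise `w (W)` is the smaller of `(53 λ d / g) ^ (c / 2)` (if
  `(10 ^ 4 + 10 λ) ^ 2 λ d ≤ 2 g`; replaced by `1` if not) and
  `8 (2 d / (π g)) ^ (d / 2) (10 ^ 4 + 10 λ + 6 √(d g)) ^ (d - c)`. Here `λ = log |G|`,
  `d = dim S` for the minimal spaces `S` in `W`, and `c = e + d - h`, where `e` is the dimension of
  the space of the equivariant endomorphisms of `S` and `h` the dimension of the space of the
  functions in `S` that are invariant under the stabilizer of a complex embedding.

(If `S` is over `ℂ` the sum of `r` conjugate representations of degree `n` with the Schur index `m`,
which occur in `V` with the multiplicity `μ`, then `d = m r n`, `h = m r μ`, `e = m ^ 2 r`, and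
`c = m r (n - μ + m)` is the codimension of the set of the degenerate elements. If `E` is normal
over `ℚ` then `μ = n` and `c = e = m ^ 2 r`.)

Let `Q` be the number of the imaginary quadratic subfields of `E` and `N d` the number of the
components `W` that are minimal spaces of dimension `d`. The second part (`RhoEstimate`) is the
estimate `ρ (E) ≤ Q / √g + 2 (N 2 + 1) / g + 3 N 3 / g ^ (3 / 2) + ∑ w (W)`, where the last sum is
over the components `W` which are not minimal, and the term `Q / √g` is omitted if `g` is odd. The
third part (`NoMultipleComponents`) says that there are no such components if `E` is abelian over
`ℚ`, or if any two complex embeddings of `E` are exchanged by some automorphism of `ℂ` (for instance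
`E = k F` for an imaginary quadratic field `k` and a totally real field `F` with this property, such
as the fields of degree `binomial (n, m)` which belong to the sets with `m` elements of roots of a
polynomial of degree `n` with real roots and Galois group `S_n`). Always `N 3 ≤ g / 3`; if `E` is
cyclic over `ℚ` then `g` is odd or `Q = 0`, and `N 2 ≤ 2`, `N 3 = 0`, `ρ (E) ≤ 6 / g`.

The proof: if no type `Φ i` is degenerate then the Hodge group of the fibre of CM type is a torus of
dimension `dim A`, which fixes all Hodge classes on all powers of that fibre, and so all classes that
are Hodge classes on all fibres. The sign function of a degenerate CM type is orthogonal to a minimal Galois-stable space.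
The number of the sign functions orthogonal to one space is estimated by a Fourier integral and the
inequality of Hölder. There are in general infinitely many minimal spaces isomorphic to `S`, but
modulo a prime number `p` that does not divide `|G|` there are only about `p ^ (h - e)` of them.
-/

namespace Pool.Agent.Results.MP_e9c0f3_ag.ThroughCMPoints

open NumberField Module Pool.Agent.H204R3.CM Pool.Agent.H977R3.CM Pool.Agent.TH170.CM
  Pool.Agent.TH170.MF Pool.Agent.TH170.QD Pool.Agent.TH170

/-- The variational Hodge conjecture for all families generated by abelian schemes with a fibre of the CM
types `Φ i`. -/
def Holds {ι : Type} {E : ι → Type} [∀ i, Field (E i)] [∀ i, NumberField (E i)]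
    (Φ : ∀ i, Set (E i →+* ℂ)) : Prop :=
  ∀ F : VH.Family (∀ i, E i), F.IsAbelian → F.HasFibre Φ → ∀ V : VH.Variation F.S, V.IsVariation →
    VH.IsGenerated F V → V.Holds

/-- The exceptional families of CM types: the variational Hodge conjecture fails for some family generated
by an abelian scheme with a fibre of the CM types `Φ i`. -/
def exceptionalFamilies {ι : Type} (E : ι → Type) [∀ i, Field (E i)] [∀ i, NumberField (E i)] :
    Set (∀ i, Set (E i →+* ℂ)) :=
  {Φ | (∀ i, IsCMType (Φ i)) ∧ ¬ Holds Φ}

/-- **The variational Hodge conjecture for all families generated by abelian schemes with a fibre of almost
any CM type of CM fields (given the theorem of Hazama).** -/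
theorem result (hH : VH.HazamaTheorem) :
    (∀ {ι : Type} [Fintype ι] (E : ι → Type) [∀ i, Field (E i)] [∀ i, NumberField (E i)]
      [∀ i, IsCMField (E i)] (g : ι → ℕ) (φ₀ : ∀ i, E i →+* ℂ), PairwiseIndep E →
      (∀ i, finrank ℚ (E i) = 2 * g i) →
      ((exceptionalFamilies E).ncard : ℝ) ≤ 2 ^ (∑ i, g i) * ∑ i, rho (g i) (φ₀ i)) ∧
    RhoEstimate ∧ NoMultipleComponents := by
  refine ⟨fun E _ _ _ g φ₀ hE hg => ncard_families_le E hg φ₀ (fun Φ => Holds Φ) ?_, rho_bounds⟩
  intro Φ hΦ hnd F hF h0 V hV hG
  exact VH.holds_of_not_degenerate hH hΦ hE hnd F hF h0 V hV hG

end Pool.Agent.Results.MP_e9c0f3_ag.ThroughCMPoints
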