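import Mathlib
import Pool.Agent.TH504.VY.Main

/-!
# The variational Hodge conjecture for products of abelian schemes with any family

Let `B` be the universal covering of the base, `A → B` a fibre product (repetitions allowed) of
families `A i` of principally polarized abelian varieties and `Y → B` ANY family of smooth
projective varieties. The homology of the fibres of `A` is trivialized: it is a rational space `W`
with an inclusion in the tangent space of `A_b` for every `b`; the cohomology `ℚ ^ v` of the fibres
of `Y` is trivialized, the Hodge structure of `Y_b` is given by its Hodge operator (multiplication
by `p - q` on `H ^ (p, q)`). Flat classes on `A ×_B Y` are the elements of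
`⨁ k, H^k(A) ⊗ H(Y) = HAZ W v`.

Suppose that `A` moves relative to `Y`: through each point of `B` there is a connected complex
manifold along which the Hodge structure of `Y` is constant and each `A i` is moving. This means
that one of its members is simple and one of its ranks (of `γ - 1` for a monodromy
operator `γ` with `(γ - 1) ^ 2 = 0`, of a derivative of the period matrix, or of the difference of
two period matrices) is odd, or the centre of the endomorphism algebra is totally real and one of
the ranks is two or there are more than `(g - 1) ^ 2 / 8` moduli. For instance `Y` is one fixed
variety, `B` is open in `ℂ ^ d` and all `A i` are moving over `B`; or `B = U × S`, the `A i` are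
moving over `U` and `Y` is a family over `S`.

Then (1) each flat class on `A ×_B Y` which is a Hodge class on all fibres is a sum of products
`f ⊗ x`, where `f` is flat and on each `A_b` a combination of products of divisor classes, and `x`
is flat and a Hodge class on all `Y_b`. (2) The variational Hodge conjecture for `Y → B` implies
the variational Hodge conjecture for `A ×_B Y → B`: a flat class which is a Hodge class on all
fibres (by the theorem of the fixed part this is so for a global section which is algebraic on one
fibre) and is algebraic on one fibre is algebraic on all fibres. For a fixed variety `Y` the
assumption is void, and this is the variational Hodge conjecture for `A × Y`.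

Of algebraic cycles only two properties are used, which are the fields of `CycleSystem`: the
product of a product of divisor classes on `A_b` and an algebraic class on `Y_b` is algebraic, and
`pr_*(F ∧ β)` is algebraic on `Y_b` for `F` algebraic on `A_b × Y_b` and a product `β` of divisor
classes on `A_b`, `pr : A_b × Y_b → Y_b`.

The proof. Let `F` be a flat class which is a Hodge class on all fibres. Along a leaf the Hodge
operator of `Y` is constant, so the differences of the Hodge operators of the `A_b` kill `F`. At a
very general point of the leaf the elements of the Hodge Lie algebra of `A_b` which kill `F` form
an ideal, which acts without invariants on the homology of each factor since this factor is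
simple and moves; the complementary ideal has zero product with it, so it is zero. Hence `F` is
killed by the Hodge operators of the `A_b` and of the `Y_b`, so that its components on `A` are
Hodge classes and, by the theorems on small and large families, combinations of products of divisor
classes. To find the components of `F` on `Y` by algebraic operations a perfect
pairing is needed: for a flat class `f` of degree `k` on `A` which is a Hodge class on all fibres
there is such a class `β` of complementary degree with `∫ f ∧ β ≠ 0`. This class is the contraction
of the volume form with an invariant tensor.
-/

namespace Pool.Agent.Results.MP_e9c0f3_ag.TimesAnyVariety

open Pool.Agent.H204R3.CM Pool.Agent.H194R3.CM Pool.Agent.W437.HD Pool.Agent.W437.HP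
  Pool.Agent.TH131.GHC Pool.Agent.TH504.VY

/-- The variational Hodge conjecture for `A ×_B Y`, where `A` is a fibre product
`A (c 0) × ... × A (c (n - 1))` of families of abelian varieties which move relative to the family
`Y`. -/
theorem result {ι B : Type} [Nonempty B] {g : ι → ℕ}
    (Z : ∀ i, B → Matrix (Fin (g i)) (Fin (g i)) ℂ) {n : ℕ} (c : Fin n → ι) {v : ℕ}
    (Y : B → Coh v) (hmov : MovesRelative Z Y) :
    HodgeClassesAreProducts (fibreProduct Z c) Y ∧ VariationalFromY (fibreProduct Z c) Y :=
  main Z c Y hmov

end Pool.Agent.Results.MP_e9c0f3_ag.TimesAnyVariety
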